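import Pool.Agent.H725R2.PL.Defs

/-! C1: closure under T-moves (adaptation of H977R3/Clos.lean) -/

set_option autoImplicit false

namespace Pool.Agent.H725R2.PL

open Finset
open Pool.Agent.H725R2.SB

variable {V : Type*} [AddCommGroup V] {Ω : Finset V}

theorem rf_rf (L : Lev Ω) (N t : ℕ) (w : ℕ → V) : rf L N t (rf L N t w) = w := by sorry

theorem rf_tm_left (L : Lev Ω) {N t s : ℕ} (h : t ≤ s) (hs : s ≤ N) (w : ℕ → V) :
    rf L N t (tm L t s w) = rf L N s w := by sorry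

theorem rf_tm_right (L : Lev Ω) {N t s : ℕ} (h : t ≤ s) (hs : s ≤ N) (w : ℕ → V) :
    rf L N s (tm L t s w) = rf L N t w := by sorry

theorem tm_tm (L : Lev Ω) (t s : ℕ) (w : ℕ → V) : tm L t s (tm L t s w) = w := by sorry

theorem tm_self (L : Lev Ω) (t : ℕ) (w : ℕ → V) : tm L t t w = w := by sorry

/-- levels after a T-move -/
theorem lev_tm_le (L : Lev Ω) {t s i : ℕ} (h : i ≤ t) (w : ℕ → V) :
    lev L (tm L t s w) i = lev L w i := by sorry

theorem lev_tm_mid (L : Lev Ω) {t s i : ℕ} (h : t ≤ i) (h' : i ≤ s) (w : ℕ → V) :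
    lev L (tm L t s w) i = 2 * lev L w t - lev L w i := by sorry

theorem lev_tm_gt (L : Lev Ω) {t s i : ℕ} (h : t ≤ s) (h' : s ≤ i) (w : ℕ → V) :
    lev L (tm L t s w) i = lev L w i - 2 * (lev L w s - lev L w t) := by sorry

theorem tm_PQ {L : Lev Ω} {U : Set V} (hP : Planar L U) (hU : ∀ v ∈ U, L.r v ∈ U) {N : ℕ}
    {l A B : ℤ} {ta td t s : ℕ} {w : ℕ → V} (hlA : l ≤ A) (hlB : l ≤ B)
    (h : PQ L U N l A B ta td w t s) : PQ L U N l A B ta td (tm L t s w) t s := by sorry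

end Pool.Agent.H725R2.PL
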