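import Pool.Agent.H725R2.PL.C1
import Pool.Agent.H977R3.Ineq
import Pool.Agent.H977R3.Ferr
import Pool.Agent.H977R3.Cov

/-! C2: the number of folded objects (adaptation of H977R3/Main.lean and of cover in Cov.lean) -/

set_option autoImplicit false

namespace Pool.Agent.H725R2.PL

open Finset
open Pool.Agent.H725R2.SB

variable {V : Type*} [AddCommGroup V] {Ω : Finset V}

theorem card_VV_le {L : Lev Ω} {U : Set V} (hP : Planar L U) (hU : ∀ v ∈ U, L.r v ∈ U)
    (Cl : (ℕ → V) → Prop) {N : ℕ} {l A B : ℤ} (hN : 1 ≤ N) (hlA : l ≤ A) (hlB : l ≤ B) :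
    ((VV L U Cl N l A B).card : ℝ) ≤ D1 N l * ((WW L U Cl N l A B).card : ℝ) := by sorry

end Pool.Agent.H725R2.PL
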