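import Pool.Agent.H725R2.PL.C2

/-! C3: summation over the cells -/

set_option autoImplicit false

namespace Pool.Agent.H725R2.PL

open Finset
open Pool.Agent.H725R2.SB

variable {V : Type*} [AddCommGroup V] {Ω : Finset V}

theorem J_sum {L : Lev Ω} {U : Set V} (hP : Planar L U) (hU : ∀ v ∈ U, L.r v ∈ U) {N : ℕ}
    (hN : 1 ≤ N) {l : ℤ} (hl : 1 ≤ l) (Y : Finset ((ℕ → V) × ℕ))
    (hY : ∀ y ∈ Y, GoodY L U N l y.1 y.2) :
    (Y.card : ℝ) ≤ D1 N l * ((ZZ L U N l Y).card : ℝ) := by sorry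

end Pool.Agent.H725R2.PL
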