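import Pool.Agent.H725R2.SB.TA2
import Pool.Agent.H725R2.SB.Lattice

/-! Planar strengthening: pairs of pivots and T-moves in terms of step sequences. -/

set_option autoImplicit false

namespace Pool.Agent.H725R2.PL

open Finset
open Pool.Agent.H725R2.SB

variable {V : Type*} [AddCommGroup V] {Ω : Finset V}

/-- Fold at time `t`: reflect all steps with index in `[t, N)`. -/
def rf (L : Lev Ω) (N t : ℕ) (w : ℕ → V) : ℕ → V := op L.r (Ico t N) w

/-- T-move at the times `t ≤ s`: reflect the steps with index in `[t, s)`. -/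
def tm (L : Lev Ω) (t s : ℕ) (w : ℕ → V) : ℕ → V := op L.r (Ico t s) w

/-- `t` is a cut time of `w`. -/
def CT (L : Lev Ω) (N : ℕ) (w : ℕ → V) (t : ℕ) : Prop := Cut (lev L w) N (lev L w t) t

/-- Local self-avoidance: all collisions are between a time before `ta` and a time after `td`. -/
def LS (N ta td : ℕ) (v : ℕ → V) : Prop :=
  ∀ i k, i < k → k ≤ N → (ta ≤ i ∨ k ≤ td) → P v i ≠ P v k

/-- Self-avoiding walks with windows: `ta` is the first cut time at level at least `A`, its level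
is less than `A + l`; `td` is the last cut time at distance at least `B` from the end level, the
distance being less than `B + l`. -/
structure Om (L : Lev Ω) (N : ℕ) (l A B : ℤ) (ta td : ℕ) (w : ℕ → V) : Prop where
  saw : IsSaw Ω N w
  cta : CT L N w ta
  ctd : CT L N w td
  le : ta ≤ td
  a1 : A ≤ lev L w ta
  a2 : lev L w ta < A + l
  amin : ∀ t, CT L N w t → A ≤ lev L w t → ta ≤ t
  b1 : B ≤ lev L w N - lev L w td
  b2 : lev L w N - lev L w td < B + l
  bmax : ∀ t, CT L N w t → B ≤ lev L w N - lev L w t → t ≤ td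

/-- forward pivots -/
structure GF (L : Lev Ω) (U : Set V) (N : ℕ) (l : ℤ) (ta td : ℕ) (w : ℕ → V) (t : ℕ) : Prop where
  h1 : ta ≤ t
  h2 : t ≤ td
  up1 : 1 ≤ t
  up : w (t - 1) ∈ U
  mx : ∀ i, i ≤ t → lev L w i ≤ lev L w t
  win : lev L w t - lev L w ta < l
  ls : LS N ta td (rf L N t w)

/-- backward pivots -/
structure GB (L : Lev Ω) (U : Set V) (N : ℕ) (l : ℤ) (ta td : ℕ) (w : ℕ → V) (t : ℕ) : Prop where
  h1 : ta ≤ t
  h2 : t ≤ td
  up1 : 1 ≤ t
  up : w (t - 1) ∈ U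
  mn : ∀ i, t < i → i ≤ N → lev L w t < lev L w i
  win : lev L w td - lev L w t < l
  ls : LS N ta td (rf L N t w)

/-- geometric condition on pairs of pivots -/
structure PQ (L : Lev Ω) (U : Set V) (N : ℕ) (l A B : ℤ) (ta td : ℕ) (w : ℕ → V) (t s : ℕ) :
    Prop where
  om : Om L N l A B ta td w
  gf : GF L U N l ta td w t
  gb : GB L U N l ta td w s
  le : t ≤ s
  c1 : ∀ i, t < i → i ≤ s → lev L w i < 2 * lev L w t - lev L w ta
  c2 : ∀ i, t ≤ i → i ≤ s → 2 * lev L w s - lev L w td ≤ lev L w i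

/-- planarity: after a T-move with `lev w t < lev w s` the part before `t` and the part after `s`
are disjoint -/
def Planar (L : Lev Ω) (U : Set V) : Prop :=
  ∀ (N : ℕ) (l A B : ℤ) (ta td t s : ℕ) (w : ℕ → V), l ≤ A → l ≤ B →
    PQ L U N l A B ta td w t s → t < s → lev L w t < lev L w s →
    ∀ i k, i ≤ t → s < k → k ≤ N → P (tm L t s w) i ≠ P (tm L t s w) k

/-- folded objects satisfying the predicate `Cl` -/
def IsV (L : Lev Ω) (U : Set V) (Cl : (ℕ → V) → Prop) (N : ℕ) (l A B : ℤ) (v : ℕ → V) : Prop :=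
  Cl v ∧ ∃ w ta td j, Om L N l A B ta td w ∧ GF L U N l ta td w j ∧ GB L U N l ta td w j ∧
    v = rf L N j w

/-- The relation between pivots `t` and `s` of `w`. -/
def QP (L : Lev Ω) (U : Set V) (Cl : (ℕ → V) → Prop) (N : ℕ) (l A B : ℤ) (w : ℕ → V) (t s : ℕ) :
    Prop :=
  (∃ ta td, PQ L U N l A B ta td w t s) ∧ IsV L U Cl N l A B (rf L N t w) ∧
    IsV L U Cl N l A B (rf L N s w)

open scoped Classical in
/-- the finite set of triples -/
noncomputable def QQ (L : Lev Ω) (U : Set V) (Cl : (ℕ → V) → Prop) (N : ℕ) (l A B : ℤ) :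
    Finset ((ℕ → V) × ℕ × ℕ) :=
  (SawSet Ω N ×ˢ (range N ×ˢ range N)).filter (fun c => QP L U Cl N l A B c.1 c.2.1 c.2.2)

open scoped Classical in
/-- the finite set of folded objects -/
noncomputable def VV (L : Lev Ω) (U : Set V) (Cl : (ℕ → V) → Prop) (N : ℕ) (l A B : ℤ) :
    Finset (ℕ → V) :=
  ((SawSet Ω N ×ˢ range N).image (fun c => rf L N c.2 c.1)).filter (IsV L U Cl N l A B)

open scoped Classical in
/-- the pivot pairs of a walk, as a finite set -/
noncomputable def RR (L : Lev Ω) (U : Set V) (Cl : (ℕ → V) → Prop) (N : ℕ) (l A B : ℤ)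
    (w : ℕ → V) : Finset (ℕ × ℕ) :=
  (range N ×ˢ range N).filter (fun c => QP L U Cl N l A B w c.1 c.2)

open scoped Classical in
/-- the walks which have a pair of pivots -/
noncomputable def WW (L : Lev Ω) (U : Set V) (Cl : (ℕ → V) → Prop) (N : ℕ) (l A B : ℤ) :
    Finset (ℕ → V) :=
  (SawSet Ω N).filter (fun w => ∃ t s, QP L U Cl N l A B w t s)

/-- `θ` is a cut time of the walk `w`, arrived at by a step in `U`, at which the fold is locally
(at distance less than `l`) self-avoiding. -/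
structure GoodY (L : Lev Ω) (U : Set V) (N : ℕ) (l : ℤ) (w : ℕ → V) (θ : ℕ) : Prop where
  saw : IsSaw Ω N w
  ct : CT L N w θ
  up1 : 1 ≤ θ
  up : w (θ - 1) ∈ U
  lo : l ≤ lev L w θ
  hi : l ≤ lev L w N - lev L w θ
  fold : ∀ i k, i ≤ θ → θ < k → k ≤ N →
    (lev L w θ - l < lev L w i ∨ lev L w k < lev L w θ + l) →
    P (rf L N θ w) i ≠ P (rf L N θ w) k

/-- the cell of the pair `y = (w, θ)` -/
def InCell (L : Lev Ω) (N : ℕ) (l A B : ℤ) (y : (ℕ → V) × ℕ) : Prop :=
  A ≤ lev L y.1 y.2 ∧ lev L y.1 y.2 < A + l ∧ B ≤ lev L y.1 N - lev L y.1 y.2 ∧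
    lev L y.1 N - lev L y.1 y.2 < B + l

/-- The relation `ZR u A B`: the walk `u` has a pair of pivots `(t, s)` in the windows given by
`(A, B)` whose folds are folds of elements of `Y` in the cell `(A, B)`. -/
def ZR (L : Lev Ω) (U : Set V) (N : ℕ) (l : ℤ) (Y : Finset ((ℕ → V) × ℕ)) (u : ℕ → V)
    (A B : ℤ) : Prop :=
  l ∣ A ∧ l ∣ B ∧ l ≤ A ∧ l ≤ B ∧ ∃ ta td t s, PQ L U N l A B ta td u t s ∧
    (∃ y ∈ Y, InCell L N l A B y ∧ rf L N t u = rf L N y.2 y.1) ∧
    (∃ y ∈ Y, InCell L N l A B y ∧ rf L N s u = rf L N y.2 y.1)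

open scoped Classical in
/-- the finite set of all `(u, A, B)` with `ZR u A B` -/
noncomputable def ZZ (L : Lev Ω) (U : Set V) (N : ℕ) (l : ℤ) (Y : Finset ((ℕ → V) × ℕ)) :
    Finset ((ℕ → V) × ℤ × ℤ) :=
  (SawSet Ω N ×ˢ (Icc (0 : ℤ) N ×ˢ Icc (0 : ℤ) N)).filter (fun c => ZR L U N l Y c.1 c.2.1 c.2.2)

/-- the polylogarithmic factor -/
noncomputable def D1 (N : ℕ) (l : ℤ) : ℝ := 4 * (Nat.log 2 l.toNat + 2) ^ 2 * (1 + 3 * Real.log N)

end Pool.Agent.H725R2.PL
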