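import Pool.Agent.H725R2.SB.TD

/-! E1: splitting a walk at its last minimum and its maximum -/

set_option autoImplicit false

namespace Pool.Agent.H725R2.PL

open Finset
open Pool.Agent.H725R2.SB

variable {V : Type*} [AddCommGroup V] {Ω : Finset V}

theorem cge_split (L : Lev Ω) (n : ℕ) (h : ℤ) :
    cge L n h ≤ ∑ i ∈ range (n + 1), ∑ j ∈ range (n + 1),
      if i + j ≤ n then cc Ω i * br L j h * cc Ω (n - i - j) else 0 := by sorry

end Pool.Agent.H725R2.PL
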