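import Pool.Agent.H725R2.PL.FamD
import Pool.Agent.H725R2.PL.E1

/-! E2: counting walks with a large excess -/

set_option autoImplicit false

namespace Pool.Agent.H725R2.PL

open Finset
open Pool.Agent.H725R2.SB

variable {V : Type*} [AddCommGroup V] {Ω : Finset V}

open scoped Classical in
theorem fam_count (L : Lev Ω) {s G E : ℝ} (hs : 0 ≤ s) (hG : 0 ≤ G) (hE : 1 ≤ E) {N : ℕ}
    (hc : ∀ n, n ≤ N → (cc Ω n : ℝ) ≤ E * mu Ω ^ n)
    (H : ∀ T, T ≤ N → ∀ h : ℤ, (br L T h : ℝ) ≤ mu Ω ^ T * Real.exp (-G * (h - s * T)))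
    (k : ℕ) (x : ℝ) :
    (((SawSet Ω N).filter (fun ξ => ∃ I, Fam N k I ∧ x ≤ fex L s ξ I)).card : ℝ) ≤
      Real.exp (-G * x) * mu Ω ^ N * (4 * ((N : ℝ) + 1) ^ 5 * E ^ 3) ^ (k + 1) := by sorry

end Pool.Agent.H725R2.PL
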