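import Pool.Agent.H725R2.PL.FamD

/-! E3: complement of a family of intervals, deterministic estimates -/

set_option autoImplicit false

namespace Pool.Agent.H725R2.PL

open Finset
open Pool.Agent.H725R2.SB

variable {V : Type*} [AddCommGroup V] {Ω : Finset V}

theorem exists_compl {N k : ℕ} {I : Finset (ℕ × ℕ)} (hI : Fam N k I) :
    ∃ J : Finset (ℕ × ℕ), Fam N (k + 1) J ∧ ∀ f : ℕ → ℝ,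
      ∑ x ∈ I, (f x.2 - f x.1) + ∑ x ∈ J, (f x.2 - f x.1) = f N - f 0 := by sorry

theorem det2 (Fr : Frame Ω) {N k : ℕ} (hk : 2 ≤ k) {ξ : ℕ → V} (hξ : IsSaw Ω N ξ) {v : ℝ}
    (hv : 0 ≤ v) (hA : v * N ≤ (lev Fr.A ξ N : ℝ))
    (tA : ∀ I, Fam N k I → fex Fr.A (lam * v) ξ I ≤ ep * v * N)
    (tB : ∀ I, Fam N k I → fex Fr.B (1.45 * v / Fr.κ) ξ I ≤ ep * v * N / Fr.κ)
    (tB' : ∀ I, Fam N k I → fex Fr.B' (1.45 * v / Fr.κ) ξ I ≤ ep * v * N / Fr.κ) :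
    (0.5 * v * N ≤ Fr.κ * (lev Fr.B ξ N : ℝ)) ∧
    (∀ r : ℕ, 5 * ep * v * N < ((k : ℝ) - 1) * r → ∀ I : Finset (ℕ × ℕ), Disj I →
      (∀ x ∈ I, x.1 ≤ x.2 ∧ x.2 ≤ N ∧ (r : ℤ) ≤ lev Fr.B ξ x.1 - lev Fr.B ξ x.2) →
      ((∑ x ∈ I, (lev Fr.B ξ x.1 - lev Fr.B ξ x.2) : ℤ) : ℝ) ≤ 4 * dl * v * N) ∧
    (∀ w : ℕ, 4 * ep * v * N < ((k : ℝ) - 1) * w → ∀ I : Finset (ℕ × ℕ), Disj I →
      (∀ x ∈ I, x.1 ≤ x.2 ∧ x.2 ≤ N ∧ 4 * (w : ℤ) ≤ lev Fr.B ξ x.2 - lev Fr.B ξ x.1 ∧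
        lev Fr.B' ξ x.2 ≤ lev Fr.B' ξ x.1) →
      (I.card : ℝ) * w ≤ 3 * dl * v * N) := by sorry

end Pool.Agent.H725R2.PL
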