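import Pool.Agent.H725R2.SB.TI

/-! E4: covering, general size of light backtracks -/

set_option autoImplicit false

namespace Pool.Agent.H725R2.PL

open Finset
open Pool.Agent.H725R2.SB

variable {V : Type*} [AddCommGroup V] {Ω : Finset V}

theorem covering2 (Fr : Frame Ω) {N r w m : ℕ} (hr : 1 ≤ r) (hw : 8 ≤ w)
    {v : ℝ} (hv : 0 < v) (hm : (m : ℝ) * (20 * w) ≤ v * N) (hm' : v * N < ((m : ℝ) + 1) * (20 * w))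
    (hmbig : 1000000 ≤ m) {ξ : ℕ → V} (hξ : IsSaw Ω N ξ)
    (d1 : 0.5 * v * N ≤ Fr.κ * (lev Fr.B ξ N : ℝ))
    (d2 : ∀ I : Finset (ℕ × ℕ), Disj I →
      (∀ x ∈ I, x.1 ≤ x.2 ∧ x.2 ≤ N ∧ (r : ℤ) ≤ lev Fr.B ξ x.1 - lev Fr.B ξ x.2) →
      ((∑ x ∈ I, (lev Fr.B ξ x.1 - lev Fr.B ξ x.2) : ℤ) : ℝ) ≤ 4 * dl * v * N)
    (d3 : ∀ I : Finset (ℕ × ℕ), Disj I →
      (∀ x ∈ I, x.1 ≤ x.2 ∧ x.2 ≤ N ∧ 4 * (w : ℤ) ≤ lev Fr.B ξ x.2 - lev Fr.B ξ x.1 ∧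
        lev Fr.B' ξ x.2 ≤ lev Fr.B' ξ x.1) →
      (I.card : ℝ) * w ≤ 3 * dl * v * N) :
    (4 * (w : ℤ) * m < lev Fr.B ξ N ∧ ∃ J : Finset ℕ, J ⊆ range m ∧ m ≤ 40 * J.card ∧
      ∀ i ∈ J, NC (lev Fr.B ξ) N r w i) ∨
    (2 * m ≤ 5 * (Good (lev Fr.B ξ) N w m).card ∧
      ∃ J : Finset ℕ, (∀ k, k ∈ J ↔ k ∈ Good (lev Fr.B ξ) N w m ∧ dB' Fr N w ξ k ≤ 0) ∧
        1000 * J.card ≤ m) := by sorry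

end Pool.Agent.H725R2.PL
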