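import Pool.Agent.H725R2.SB.Defs2

/-! families of intervals -/

set_option autoImplicit false

namespace Pool.Agent.H725R2.PL

open Finset
open Pool.Agent.H725R2.SB

variable {V : Type*} [AddCommGroup V] {Ω : Finset V}

/-- families of at most `k` disjoint time intervals in `[0, N]` -/
def Fam (N k : ℕ) (I : Finset (ℕ × ℕ)) : Prop :=
  Disj I ∧ (∀ x ∈ I, x.1 ≤ x.2 ∧ x.2 ≤ N) ∧ I.card ≤ k

/-- total excess over the speed `s` on the intervals of `I` -/
noncomputable def fex (L : Lev Ω) (s : ℝ) (ξ : ℕ → V) (I : Finset (ℕ × ℕ)) : ℝ :=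
  ∑ x ∈ I, (|((lev L ξ x.2 - lev L ξ x.1 : ℤ) : ℝ)| - s * ((x.2 : ℝ) - x.1))

end Pool.Agent.H725R2.PL
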