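import Pool.Agent.H725R2.PL.W6
import Pool.Agent.H725R2.PL.E2
import Pool.Agent.H725R2.PL.E3
import Pool.Agent.H725R2.PL.E4
import Pool.Agent.H725R2.SB.TJ

/-! K2: the key contradiction -/

set_option autoImplicit false

namespace Pool.Agent.H725R2.PL

open Finset
open Pool.Agent.H725R2.SB

variable {V : Type*} [AddCommGroup V] {Ω : Finset V}

theorem key2 (Fr : Frame Ω) {U1 U2 : Set V} (pl : PlStr Fr.B U1 U2) {K : ℝ} (hK0 : 0 ≤ K)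
    (hK : ∀ n : ℕ, (cc Ω n : ℝ) ≤ Real.exp (K * (1 + Real.log (n + 1)) ^ 9) * mu Ω ^ n) :
    ∃ C : ℝ, 0 < C ∧ ∀ (N : ℕ) (h₀ : ℤ) (G G' v : ℝ), 1 ≤ N → v * N = h₀ → 0 < v → v ≤ 1 →
      0 < G → G' ≤ 1 → C * G * (1 + Real.log (N + 1)) ^ 17 ≤ G' →
      C * (1 + Real.log (N + 1)) ^ 9 ≤ G * v * N →
      mu Ω ^ N * Real.exp (-G * h₀) / ((N : ℝ) + 1) ≤ (br Fr.A N h₀ : ℝ) →
      (∀ T, T ≤ N → ∀ h : ℤ, (br Fr.A T h : ℝ) ≤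
        mu Ω ^ T * Real.exp (-G' * (h - lam * v * T))) →
      (∀ T, T ≤ N → ∀ h : ℤ, (br Fr.B T h : ℝ) ≤
        mu Ω ^ T * Real.exp (-G' * (h - 1.45 * v / Fr.κ * T))) → False := by sorry

end Pool.Agent.H725R2.PL
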