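import Pool.Agent.H725R2.PL.Defs
import Pool.Agent.H725R2.SB.TN2

/-! The level functionals `x`, `y`, `x + y`, `x - y` on `ℤ^2`. -/

set_option autoImplicit false

namespace Pool.Agent.H725R2.PL

open Finset
open Pool.Agent.H725R2.SB

/-- the four unit steps of `ℤ^2` -/
abbrev S2 : Finset (Fin 2 → ℤ) := Pool.Agent.H725R2.SB.Om 2

theorem mem_S2 (v : Fin 2 → ℤ) : v ∈ S2 ↔ |v 0| + |v 1| = 1 := by
  rw [tN2_mem_Om, Fin.sum_univ_two]

/-- steps of `ℤ^2` by cases -/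
theorem S2_cases {v : Fin 2 → ℤ} (h : v ∈ S2) :
    (v 0 = 1 ∧ v 1 = 0) ∨ (v 0 = -1 ∧ v 1 = 0) ∨ (v 0 = 0 ∧ v 1 = 1) ∨ (v 0 = 0 ∧ v 1 = -1) := by
  rw [mem_S2] at h
  rcases abs_cases (v 0) with h0 | h0 <;> rcases abs_cases (v 1) with h1 | h1 <;> omega

/-- reflection `(x,y) ↦ (-x,y)` -/
def rX : (Fin 2 → ℤ) ≃+ (Fin 2 → ℤ) where
  toFun v := ![-v 0, v 1]
  invFun v := ![-v 0, v 1]
  left_inv v := by ext i; fin_cases i <;> simp
  right_inv v := by ext i; fin_cases i <;> simp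
  map_add' u v := by ext i; fin_cases i <;> simp; ring

/-- reflection `(x,y) ↦ (x,-y)` -/
def rY : (Fin 2 → ℤ) ≃+ (Fin 2 → ℤ) where
  toFun v := ![v 0, -v 1]
  invFun v := ![v 0, -v 1]
  left_inv v := by ext i; fin_cases i <;> simp
  right_inv v := by ext i; fin_cases i <;> simp
  map_add' u v := by ext i; fin_cases i <;> simp; ring

/-- reflection `(x,y) ↦ (y,x)` -/
def rS : (Fin 2 → ℤ) ≃+ (Fin 2 → ℤ) where
  toFun v := ![v 1, v 0]
  invFun v := ![v 1, v 0]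
  left_inv v := by ext i; fin_cases i <;> simp
  right_inv v := by ext i; fin_cases i <;> simp
  map_add' u v := by ext i; fin_cases i <;> simp

/-- reflection `(x,y) ↦ (-y,-x)` -/
def rT : (Fin 2 → ℤ) ≃+ (Fin 2 → ℤ) where
  toFun v := ![-v 1, -v 0]
  invFun v := ![-v 1, -v 0]
  left_inv v := by ext i; fin_cases i <;> simp
  right_inv v := by ext i; fin_cases i <;> simp
  map_add' u v := by ext i; fin_cases i <;> simp <;> ring

@[simp] theorem rX_0 (v : Fin 2 → ℤ) : rX v 0 = -v 0 := rfl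
@[simp] theorem rX_1 (v : Fin 2 → ℤ) : rX v 1 = v 1 := rfl
@[simp] theorem rY_0 (v : Fin 2 → ℤ) : rY v 0 = v 0 := rfl
@[simp] theorem rY_1 (v : Fin 2 → ℤ) : rY v 1 = -v 1 := rfl
@[simp] theorem rS_0 (v : Fin 2 → ℤ) : rS v 0 = v 1 := rfl
@[simp] theorem rS_1 (v : Fin 2 → ℤ) : rS v 1 = v 0 := rfl
@[simp] theorem rT_0 (v : Fin 2 → ℤ) : rT v 0 = -v 1 := rfl
@[simp] theorem rT_1 (v : Fin 2 → ℤ) : rT v 1 = -v 0 := rfl

theorem ext2 {u v : Fin 2 → ℤ} (h0 : u 0 = v 0) (h1 : u 1 = v 1) : u = v := by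
  ext i; fin_cases i <;> assumption

/-- the functional `x` -/
def fX : (Fin 2 → ℤ) →+ ℤ := Pi.evalAddMonoidHom (fun _ => ℤ) 0
/-- the functional `y` -/
def fY : (Fin 2 → ℤ) →+ ℤ := Pi.evalAddMonoidHom (fun _ => ℤ) 1

@[simp] theorem fX_apply (v : Fin 2 → ℤ) : fX v = v 0 := rfl
@[simp] theorem fY_apply (v : Fin 2 → ℤ) : fY v = v 1 := rfl
@[simp] theorem fD_apply (v : Fin 2 → ℤ) : (fX + fY) v = v 0 + v 1 := rfl
@[simp] theorem fE_apply (v : Fin 2 → ℤ) : (fX - fY) v = v 0 - v 1 := rfl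

theorem abs_le_one_of {v : Fin 2 → ℤ} (h : v ∈ S2) : |v 0| ≤ 1 ∧ |v 1| ≤ 1 ∧ |v 0 + v 1| ≤ 1 ∧
    |v 0 - v 1| ≤ 1 := by
  rcases S2_cases h with ⟨h0, h1⟩ | ⟨h0, h1⟩ | ⟨h0, h1⟩ | ⟨h0, h1⟩ <;> rw [h0, h1] <;> decide

/-- levels `x` -/
def LX : Lev S2 where
  F := fX
  r := rX
  e := ![1, 0]
  le_one v hv := (abs_le_one_of hv).1
  rF v := rfl
  rΩ v hv := by rw [mem_S2] at *; simpa using hv
  rr v := ext2 (by simp) (by simp)
  eΩ := by rw [mem_S2]; decide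
  Fe := rfl

/-- levels `y` -/
def LY : Lev S2 where
  F := fY
  r := rY
  e := ![0, 1]
  le_one v hv := (abs_le_one_of hv).2.1
  rF v := rfl
  rΩ v hv := by rw [mem_S2] at *; simpa using hv
  rr v := ext2 (by simp) (by simp)
  eΩ := by rw [mem_S2]; decide
  Fe := rfl

/-- levels `x + y` -/
def LD : Lev S2 where
  F := fX + fY
  r := rT
  e := ![1, 0]
  le_one v hv := (abs_le_one_of hv).2.2.1
  rF v := by simp
  rΩ v hv := by rw [mem_S2] at *; simp only [rT_0, rT_1, abs_neg]; omega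
  rr v := ext2 (by simp) (by simp)
  eΩ := by rw [mem_S2]; decide
  Fe := rfl

/-- levels `x - y` -/
def LE : Lev S2 where
  F := fX - fY
  r := rS
  e := ![1, 0]
  le_one v hv := (abs_le_one_of hv).2.2.2
  rF v := by simp
  rΩ v hv := by rw [mem_S2] at *; simp only [rS_0, rS_1]; omega
  rr v := ext2 (by simp) (by simp)
  eΩ := by rw [mem_S2]; decide
  Fe := rfl

/-- `A = x`, `B = x + y`, `B' = x - y` -/
def FR1 : Frame S2 where
  A := LX
  B := LD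
  B' := LE
  κ := 1
  hκ := Or.inl rfl
  rel v := by simp [LX, LD, LE]; ring
  t := rS
  tB v := by simp [LD]; ring
  tB' v := by simp [LE]
  tΩ v hv := by rw [mem_S2] at *; simp only [rS_0, rS_1]; omega
  tt v := ext2 (by simp) (by simp)
  g := rY
  gB v := by simp [LD, LE]; ring
  gΩ v hv := by rw [mem_S2] at *; simpa using hv
  gg v := ext2 (by simp) (by simp)

/-- `A = x + y`, `B = x`, `B' = y` -/
def FR2 : Frame S2 where
  A := LD
  B := LX
  B' := LY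
  κ := 2
  hκ := Or.inr rfl
  rel v := by simp [LX, LD, LY]
  t := rY
  tB v := by simp [LX]
  tB' v := by simp [LY]
  tΩ v hv := by rw [mem_S2] at *; simpa using hv
  tt v := ext2 (by simp) (by simp)
  g := rS
  gB v := by simp [LX, LY]
  gΩ v hv := by rw [mem_S2] at *; simp only [rS_0, rS_1]; omega
  gg v := ext2 (by simp) (by simp)

/-- Planarity structure: two classes of arrival steps, both planar, covering all arrivals at
foldable cut times. -/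
structure PlStr {V : Type*} [AddCommGroup V] {Ω : Finset V} (L : Lev Ω) (U1 U2 : Set V) : Prop where
  p1 : Planar L U1
  p2 : Planar L U2
  r1 : ∀ v ∈ U1, L.r v ∈ U1
  r2 : ∀ v ∈ U2, L.r v ∈ U2
  arr : ∀ e ∈ Ω, ∀ f ∈ Ω, 0 ≤ L.F e → L.F f = 1 → e + L.r f ≠ 0 → e ∈ U1 ∨ e ∈ U2

/-- arrival classes for the levels `x` -/
def UX (ε : ℤ) : Set (Fin 2 → ℤ) := {v | v 1 = ε}
/-- arrival classes for the levels `x + y` -/
def UD (ε : ℤ) : Set (Fin 2 → ℤ) := {v | v 1 - v 0 = ε}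

end Pool.Agent.H725R2.PL
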