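import Pool.Agent.H725R2.PL.Lat

/-! PD: planarity for the levels x + y -/

set_option autoImplicit false

namespace Pool.Agent.H725R2.PL

open Finset
open Pool.Agent.H725R2.SB

theorem plD : PlStr LD (UD 1) (UD (-1)) := by sorry

end Pool.Agent.H725R2.PL
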