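import Pool.Agent.H725R2.SB.TA2

/-! pressure -/

set_option autoImplicit false

namespace Pool.Agent.H725R2.PL

open Finset
open Pool.Agent.H725R2.SB

variable {V : Type*} [AddCommGroup V] {Ω : Finset V}

open scoped Classical in
/-- exponential moment of the height of `n`-step bridges -/
noncomputable def BG (L : Lev Ω) (G : ℝ) (n : ℕ) : ℝ :=
  ∑ ξ ∈ (SawSet Ω n).filter (fun ξ => IsBr L n ξ), Real.exp (G * (lev L ξ n : ℝ))

/-- pressure up to length `M` -/
noncomputable def pr (L : Lev Ω) (M : ℕ) (G : ℝ) : ℝ :=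
  sSup ((fun n : ℕ => Real.log (BG L G n / mu Ω ^ n) / n) '' Set.Icc 1 M)

/-- speed at the tilt `G` -/
noncomputable def sp (L : Lev Ω) (M : ℕ) (G : ℝ) : ℝ := pr L M G / G

end Pool.Agent.H725R2.PL
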