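import Pool.Agent.H725R2.PL.PrD

/-! R1: properties of the pressure -/

set_option autoImplicit false

namespace Pool.Agent.H725R2.PL

open Finset
open Pool.Agent.H725R2.SB

variable {V : Type*} [AddCommGroup V] {Ω : Finset V}

/-- tilted upper bound for bridges -/
theorem br_le_pr (L : Lev Ω) {M : ℕ} {G : ℝ} (hG : 0 < G) {T : ℕ} (hT : T ≤ M) (h : ℤ) :
    (br L T h : ℝ) ≤ mu Ω ^ T * Real.exp (-G * (h - sp L M G * T)) := by sorry

theorem sp_le_one (L : Lev Ω) {M : ℕ} (hM : 1 ≤ M) {G : ℝ} (hG : 0 < G) : sp L M G ≤ 1 := by sorry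

theorem sp_mono (L : Lev Ω) {M : ℕ} (hM : 1 ≤ M) {G G' : ℝ} (hG : 0 < G) (h : G ≤ G') :
    sp L M G ≤ sp L M G' := by sorry

/-- the supremum is attained at a large length -/
theorem pr_attained (L : Lev Ω) {M : ℕ} (hM : 1 ≤ M) (G : ℝ) :
    ∃ n : ℕ, n ≤ M ∧ M < 2 * n ∧ BG L G n = mu Ω ^ n * Real.exp (pr L M G * n) := by sorry

/-- existence of a good length and height -/
theorem exists_height (L : Lev Ω) {M : ℕ} (hM : 1 ≤ M) {G : ℝ} (hG : 0 < G)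
    (hp : 0 ≤ sp L M G) : ∃ n : ℕ, n ≤ M ∧ M < 2 * n ∧ ∃ h : ℤ, h ≤ n ∧
      sp L M G * n - Real.log (n + 1) / G ≤ h ∧
      mu Ω ^ n * Real.exp (-G * h) / ((n : ℝ) + 1) ≤ (br L n h : ℝ) := by sorry

end Pool.Agent.H725R2.PL
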