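import Pool.Agent.H725R2.PL.R1
import Pool.Agent.H725R2.PL.E1
import Pool.Agent.H725R2.PL.Lat
import Pool.Agent.H725R2.SB.TK2

/-! R2: comparison of the two speeds -/

set_option autoImplicit false

namespace Pool.Agent.H725R2.PL

open Finset
open Pool.Agent.H725R2.SB

theorem spX_le (K : ℝ) (hK0 : 0 ≤ K)
    (hK : ∀ n : ℕ, (cc S2 n : ℝ) ≤ Real.exp (K * (1 + Real.log (n + 1)) ^ 9) * mu S2 ^ n)
    {M : ℕ} (hM : 1 ≤ M) {G : ℝ} (hG : 0 < G) :
    sp LX M G ≤ max (sp LD M G) 0 +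
      (2 * Real.log 2 + 6 * Real.log (M + 1) + 4 * K * (1 + Real.log (M + 1)) ^ 9) / (G * M) := by
  sorry

end Pool.Agent.H725R2.PL
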