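import Pool.Agent.H725R2.PL.K2
import Pool.Agent.H725R2.PL.R1
import Pool.Agent.H725R2.PL.PX
import Pool.Agent.H725R2.PL.PD

/-! R3: one step of the iteration -/

set_option autoImplicit false

namespace Pool.Agent.H725R2.PL

open Finset
open Pool.Agent.H725R2.SB

theorem sp_step (K : ℝ) (hK0 : 0 ≤ K)
    (hK : ∀ n : ℕ, (cc S2 n : ℝ) ≤ Real.exp (K * (1 + Real.log (n + 1)) ^ 9) * mu S2 ^ n) :
    ∃ (C : ℝ) (M₀ : ℕ), 0 < C ∧ ∀ M : ℕ, M₀ ≤ M → ∀ G : ℝ, (M : ℝ) ^ (-(1 / 2) : ℝ) ≤ G →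
      C * G * (1 + Real.log (M + 1)) ^ 17 ≤ 1 →
      (M : ℝ) ^ (-(1 / 4) : ℝ) ≤ sp LX M G → (M : ℝ) ^ (-(1 / 4) : ℝ) ≤ sp LD M G →
      (1 + 1 / 1000000) * sp LX M G ≤ sp LX M (C * G * (1 + Real.log (M + 1)) ^ 17) ∨
      (1 + 1 / 1000000) * sp LD M G ≤ sp LD M (C * G * (1 + Real.log (M + 1)) ^ 17) := by sorry

end Pool.Agent.H725R2.PL
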