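import Pool.Agent.H725R2.PL.R1
import Pool.Agent.H725R2.PL.Lat

/-! R4: the iteration -/

set_option autoImplicit false

namespace Pool.Agent.H725R2.PL

open Finset
open Pool.Agent.H725R2.SB

/-- pure iteration lemma: `f`, `g` nondecreasing, at most one; growth by the factor `l` at each
multiplication of the argument by `ρ` -/
theorem iterate2 {f g : ℝ → ℝ} (f1 : ∀ x, 0 < x → f x ≤ 1) (g1 : ∀ x, 0 < x → g x ≤ 1)
    (fm : ∀ x y, 0 < x → x ≤ y → f x ≤ f y) (gm : ∀ x y, 0 < x → x ≤ y → g x ≤ g y)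
    {l ρ x₀ a : ℝ} (hl : 1 < l) (hρ : 1 ≤ ρ) (hx₀ : 0 < x₀) (ha : 0 < a)
    (hf : a ≤ f x₀) (hg : a ≤ g x₀) (J : ℕ) (hJ : x₀ * ρ ^ J ≤ 1)
    (step : ∀ x, x₀ ≤ x → x * ρ ≤ 1 → l * f x ≤ f (x * ρ) ∨ l * g x ≤ g (x * ρ)) :
    f x₀ * g x₀ * l ^ J ≤ 1 := by sorry

end Pool.Agent.H725R2.PL
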