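import Pool.Agent.H725R2.PL.Lat
import Pool.Agent.H981R2.Fin9
import Pool.Agent.H725R2.SB.TA1

/-! R5: quasi-polynomial upper bound for the number of walks -/

set_option autoImplicit false

namespace Pool.Agent.H725R2.PL

open Finset
open Pool.Agent.H725R2.SB

theorem cc_quasi : ∃ K : ℝ, 0 ≤ K ∧ ∀ n : ℕ,
    (cc S2 n : ℝ) ≤ Real.exp (K * (1 + Real.log (n + 1)) ^ 9) * mu S2 ^ n := by sorry

end Pool.Agent.H725R2.PL
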