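import Pool.Agent.H725R2.PL.R2
import Pool.Agent.H725R2.PL.R3
import Pool.Agent.H725R2.PL.R4
import Pool.Agent.H725R2.PL.R5

/-! R6: the speed of the planar self-avoiding walk -/

set_option autoImplicit false

namespace Pool.Agent.H725R2.PL

open Finset
open Pool.Agent.H725R2.SB

theorem spX_small : ∃ (c : ℝ) (M₀ : ℕ), 0 < c ∧ ∀ M : ℕ, M₀ ≤ M →
    sp LX M ((M : ℝ) ^ (-(1 / 2) : ℝ)) ≤
      Real.exp (-(c * Real.log M / Real.log (Real.log M))) := by sorry

end Pool.Agent.H725R2.PL
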