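import Pool.Agent.H725R2.PL.R6
import Pool.Agent.H725R2.PL.E1
import Pool.Agent.H725R2.SB.TN3
import Pool.Agent.H725R2.SB.TN2

/-! R7: displacement of the planar self-avoiding walk -/

set_option autoImplicit false

namespace Pool.Agent.H725R2.PL

open Finset
open Pool.Agent.H725R2.SB

theorem planar_displacement : ∃ (c C : ℝ), 0 < c ∧ 0 < C ∧ ∀ N : ℕ, 3 ≤ N →
    (cfar 2 N (C * N * Real.exp (-(c * Real.log N / Real.log (Real.log N)))) : ℝ) ≤
      C * Real.exp (-(N : ℝ) ^ (1 / 5 : ℝ)) * cN 2 N := by sorry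

end Pool.Agent.H725R2.PL
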