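import Pool.Agent.H725R2.PL.Win

/-! W0: small backtracks -/

set_option autoImplicit false

namespace Pool.Agent.H725R2.PL

open Finset
open Pool.Agent.H725R2.SB

variable {V : Type*} [AddCommGroup V] {Ω : Finset V}

theorem MS_small (L : Lev Ω) (N n r w i : ℕ) (hr : r ≤ w) (hin : i < n) (I : Finset ℕ)
    (hI : ∀ j ∈ I, j < i) (m : ℕ) :
    (MS L N n r w i I 0 m).card ≤ m ^ 2 * (XI L N n r w I).card := by sorry

end Pool.Agent.H725R2.PL
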