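import Pool.Agent.H725R2.PL.Win

/-! W1: transfer of closed windows -/

set_option autoImplicit false

namespace Pool.Agent.H725R2.PL

open Finset
open Pool.Agent.H725R2.SB

variable {V : Type*} [AddCommGroup V] {Ω : Finset V}

theorem cut_transfer {a a' : ℕ → ℤ} {N t : ℕ} {b : ℤ} (h : ∀ i, i ≤ t → a' i = a i)
    (ht : t ≤ N) (hb : b ≤ a t) (h1 : ∀ i, t ≤ i → i ≤ N → b ≤ a i)
    (h2 : ∀ i, t ≤ i → i ≤ N → b ≤ a' i) {q : ℤ} (hq : q < b) {τ : ℕ} (hc : Cut a' N q τ) :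
    Cut a N q τ := by sorry

theorem NC_transfer {a a' : ℕ → ℤ} {N t : ℕ} {b : ℤ} (h : ∀ i, i ≤ t → a' i = a i)
    (ht : t ≤ N) (h1 : ∀ i, t ≤ i → i ≤ N → b ≤ a i)
    (h2 : ∀ i, t ≤ i → i ≤ N → b ≤ a' i) {r w j : ℕ} (hr : r ≤ w)
    (hb : 4 * (w : ℤ) * (j + 1) ≤ b) (hn : NC a N r w j) : NC a' N r w j := by sorry

end Pool.Agent.H725R2.PL
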