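import Pool.Agent.H725R2.PL.W1

/-! W2: first step, admissibility -/

set_option autoImplicit false

namespace Pool.Agent.H725R2.PL

open Finset
open Pool.Agent.H725R2.SB

variable {V : Type*} [AddCommGroup V] {Ω : Finset V}

theorem goodY_first (L : Lev Ω) (U : Set V) {N n r w i : ℕ} (hr : r ≤ w) (hin : i < n)
    (I : Finset ℕ) {l l' m : ℤ} (hm : 1 ≤ m) (hml : m ≤ l) {ξ : ℕ → V} {j t2 : ℕ}
    (h : (ξ, j, t2) ∈ MS L N n r w i I l l') (hU : ξ (j - 1) ∈ U) :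
    GoodY L U N m (op L.r (Ico j t2) ξ) j := by sorry

theorem arr_first {L : Lev Ω} {U1 U2 : Set V} (pl : PlStr L U1 U2) {N n r w i : ℕ} (hr : r ≤ w)
    (hin : i < n) (I : Finset ℕ) {l l' : ℤ} (hl : 1 ≤ l) {ξ : ℕ → V} {j t2 : ℕ}
    (h : (ξ, j, t2) ∈ MS L N n r w i I l l') : ξ (j - 1) ∈ U1 ∨ ξ (j - 1) ∈ U2 := by sorry

end Pool.Agent.H725R2.PL
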