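import Pool.Agent.H725R2.PL.W1
import Pool.Agent.H725R2.PL.C1

/-! W3: first step, output -/

set_option autoImplicit false

namespace Pool.Agent.H725R2.PL

open Finset
open Pool.Agent.H725R2.SB

variable {V : Type*} [AddCommGroup V] {Ω : Finset V}

theorem first_step (L : Lev Ω) (U : Set V) {N n r w i : ℕ} (hr : r ≤ w) (hin : i < n)
    (I : Finset ℕ) (hI : ∀ j ∈ I, j < i) {m : ℤ} (hm : 1 ≤ m) (hmw : 64 * m ≤ w) {u : ℕ → V}
    {t2 : ℕ} {A B : ℤ}
    (h : ZR L U N m (Y1 L N n r w i I (16 * m) (32 * m) U t2) u A B) :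
    S1 L N n w i (XI L N n r w I) m u t2 ∧
      (lev L u t2 - 33 * m < A ∧ A < lev L u t2 - 14 * m) ∧
      (lev L u N - A - 5 * m < B ∧ B ≤ lev L u N - A) := by sorry

end Pool.Agent.H725R2.PL
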