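import Pool.Agent.H725R2.PL.W1
import Pool.Agent.H725R2.PL.C1

/-! W4: second step, admissibility and output -/

set_option autoImplicit false

namespace Pool.Agent.H725R2.PL

open Finset
open Pool.Agent.H725R2.SB

variable {V : Type*} [AddCommGroup V] {Ω : Finset V}

theorem goodY_second {L : Lev Ω} {U1 U2 : Set V} (pl : PlStr L U1 U2) {N n w i : ℕ}
    {X : Finset (ℕ → V)} {m : ℤ} (hm : 2 ≤ m) (hmw : 64 * m ≤ w) {u : ℕ → V} {t2 : ℕ}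
    (h : S1 L N n w i X m u t2) :
    (u (t2 - 1) ∈ U1 ∨ u (t2 - 1) ∈ U2) ∧
      ∀ U : Set V, u (t2 - 1) ∈ U → GoodY L U N m u t2 := by sorry

theorem second_step (L : Lev Ω) (U : Set V) {N n r w i : ℕ} (hr : r ≤ w) (hin : i < n)
    (I : Finset ℕ) (hI : ∀ j ∈ I, j < i) {m : ℤ} (hm : 1 ≤ m) (hmw : 64 * m ≤ w)
    (Y : Finset ((ℕ → V) × ℕ)) (hY : ∀ y ∈ Y, S1 L N n w i (XI L N n r w I) m y.1 y.2) :
    ∃ q : (ℕ → V) → ℤ, ∀ (u : ℕ → V) (A B : ℤ), ZR L U N m Y u A B →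
      u ∈ XI L N n r w I ∧ (q u - m < A ∧ A < q u + 64 * m) ∧
      (lev L u N - A - 5 * m < B ∧ B ≤ lev L u N - A) := by sorry

end Pool.Agent.H725R2.PL
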