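import Pool.Agent.H725R2.PL.W0
import Pool.Agent.H725R2.PL.W2
import Pool.Agent.H725R2.PL.W3
import Pool.Agent.H725R2.PL.W4
import Pool.Agent.H725R2.PL.C3

/-! W5: marked backtracks at one scale -/

set_option autoImplicit false

namespace Pool.Agent.H725R2.PL

open Finset
open Pool.Agent.H725R2.SB

variable {V : Type*} [AddCommGroup V] {Ω : Finset V}

theorem MS_scale {L : Lev Ω} {U1 U2 : Set V} (pl : PlStr L U1 U2) {N n r w i : ℕ} (hN : 1 ≤ N)
    (hr : r ≤ w) (hin : i < n) (I : Finset ℕ) (hI : ∀ j ∈ I, j < i) {m : ℤ} (hm : 2 ≤ m)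
    (hmw : 64 * m ≤ w) :
    ((MS L N n r w i I (16 * m) (32 * m)).card : ℝ) ≤
      200000 * D1 N m ^ 2 * ((XI L N n r w I).card : ℝ) := by sorry

end Pool.Agent.H725R2.PL
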