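import Pool.Agent.H725R2.PL.W5

/-! W6: one window, all windows -/

set_option autoImplicit false

namespace Pool.Agent.H725R2.PL

open Finset
open Pool.Agent.H725R2.SB

variable {V : Type*} [AddCommGroup V] {Ω : Finset V}

/-- the polylogarithmic cost of one unfolding -/
noncomputable def DD (r N : ℕ) : ℝ :=
  4000000 * (Nat.log 2 r + 2) ^ 5 * (1 + 3 * Real.log N) ^ 2

theorem one_window {L : Lev Ω} {U1 U2 : Set V} (pl : PlStr L U1 U2) {N n r w i : ℕ} (hN : 1 ≤ N)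
    (hr : 8 * r ≤ w) (hin : i < n) (I : Finset ℕ) (hI : ∀ j ∈ I, j < i) :
    ((XI L N n r w (insert i I)).card : ℝ) * w ≤
      (r * DD r N) * ((XI L N n r w I).card : ℝ) := by sorry

open scoped Classical in
theorem closed_rare {L : Lev Ω} {U1 U2 : Set V} (pl : PlStr L U1 U2) {N m r w : ℕ} (hN : 1 ≤ N)
    (hr1 : 1 ≤ r) (hw : 2 ^ 120 * (r * DD r N) ≤ w) :
    (((SawSet Ω N).filter (fun ξ => 4 * (w : ℤ) * m < lev L ξ N ∧ ∃ J : Finset ℕ, J ⊆ range m ∧
      m ≤ 40 * J.card ∧ ∀ i ∈ J, NC (lev L ξ) N r w i)).card : ℝ) * Real.exp (m / 5) ≤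
        (cc Ω N : ℝ) := by sorry

end Pool.Agent.H725R2.PL
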