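import Pool.Agent.H725R2.PL.Lat
import Pool.Agent.H725R2.SB.TF2

/-! definitions for the windows -/

set_option autoImplicit false

namespace Pool.Agent.H725R2.PL

open Finset
open Pool.Agent.H725R2.SB

variable {V : Type*} [AddCommGroup V] {Ω : Finset V}

open scoped Classical in
/-- walks whose windows `j ∈ I` are closed and rich in light levels -/
noncomputable def XI (L : Lev Ω) (N n r w : ℕ) (I : Finset ℕ) : Finset (ℕ → V) :=
  (SawSet Ω N).filter (fun ξ => 4 * (w : ℤ) * n < lev L ξ N ∧ ∀ j ∈ I, NC (lev L ξ) N r w j)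

/-- `(t, t2)` is a backtrack of size in `[l, l')`, less than `r`, in the core of the window `i` -/
def Mk (L : Lev Ω) (N r w i : ℕ) (l l' : ℤ) (ξ : ℕ → V) (t t2 : ℕ) : Prop :=
  ∃ p : ℤ, 4 * (w : ℤ) * i + w < p ∧ p ≤ 4 * (w : ℤ) * i + 3 * w ∧ BT (lev L ξ) N p t t2 ∧
    l ≤ lev L ξ t - lev L ξ t2 ∧ lev L ξ t - lev L ξ t2 < l' ∧ lev L ξ t - lev L ξ t2 < r

open scoped Classical in
/-- marked backtracks of the walks with closed windows `insert i I` -/
noncomputable def MS (L : Lev Ω) (N n r w i : ℕ) (I : Finset ℕ) (l l' : ℤ) :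
    Finset ((ℕ → V) × ℕ × ℕ) :=
  (XI L N n r w (insert i I) ×ˢ (range (N + 1) ×ˢ range (N + 1))).filter
    (fun c => Mk L N r w i l l' c.1 c.2.1 c.2.2)

open scoped Classical in
/-- first unfolding: pairs `(w, j)` with `w` the unfolding of `ξ` at the backtrack `(j, t2)` -/
noncomputable def Y1 (L : Lev Ω) (N n r w i : ℕ) (I : Finset ℕ) (l l' : ℤ) (U : Set V) (t2 : ℕ) :
    Finset ((ℕ → V) × ℕ) :=
  ((MS L N n r w i I l l').filter (fun c => c.2.2 = t2 ∧ c.1 (c.2.1 - 1) ∈ U)).image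
    (fun c => (op L.r (Ico c.2.1 t2) c.1, c.2.1))

/-- properties of the walks obtained after the first step -/
structure S1 (L : Lev Ω) (N n w i : ℕ) (X : Finset (ℕ → V)) (m : ℤ) (u : ℕ → V) (t2 : ℕ) :
    Prop where
  saw : IsSaw Ω N u
  ct : CT L N u t2
  up1 : 1 ≤ t2
  mem : u ∈ X
  fold : ∀ a k, a ≤ t2 → t2 < k → k ≤ N →
    (lev L u t2 - m < lev L u a ∨ lev L u k < lev L u t2 + m) →
    P (rf L N t2 u) a ≠ P (rf L N t2 u) k
  loc : ∀ θ, CT L N u θ → 4 * (w : ℤ) * i ≤ lev L u θ → lev L u θ ≤ lev L u t2 →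
    lev L u t2 - 64 * m < lev L u θ
  hlo : 4 * (w : ℤ) * i + w < lev L u t2
  hhi : (w : ℤ) ≤ lev L u N - lev L u t2
  hend : 4 * (w : ℤ) * n + 30 * m < lev L u N

end Pool.Agent.H725R2.PL
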